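import Pool.Agent.Lib.MP_776403_ag.SD.R.Spec

/-!
# THEOREM R, module CLp: a linear subspace of codimension `≤ k`
-/

set_option autoImplicit false

open MvPolynomial

noncomputable section

namespace Pool.Agent.Lib.MP_776403_ag.SD

namespace CLpAux

/-- An ideal generated by forms is homogeneous. -/
private theorem span_hom {r : ℕ} (s : Set (Sx r)) (hs : ∀ f ∈ s, ∃ m : ℕ, f.IsHomogeneous m) :
    IsHom (Ideal.span s) := by
  intro F hF m
  let _ := MvPolynomial.gradedAlgebra (σ := Fin (r + 1)) (R := ℂ)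
  have h1 : (Ideal.span s).IsHomogeneous (homogeneousSubmodule (Fin (r + 1)) ℂ) := by
    refine Ideal.homogeneous_span _ _ ?_
    intro f hf
    obtain ⟨n, hn⟩ := hs f hf
    exact ⟨n, hn⟩
  exact homogeneousComponent_mem_of_mem h1 hF m

/-- A form of degree `1` vanishes at the origin. -/
private theorem eval_zero_form {r : ℕ} {F : Sx r} (hF : F.IsHomogeneous 1) :
    eval (0 : Vx r) F = 0 := by
  have h : coeff 0 F = 0 := hF.coeff_eq_zero (by simp)
  rw [← constantCoeff_eq] at h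
  rw [← h]
  simp

end CLpAux

open CLpAux in
theorem cLp : S_Krull → S_TB → S_CLp := by
  intro hK hTB N k h hh
  have hJ0 : IsHom (Ideal.span (Set.range h)) := by
    refine span_hom _ ?_
    rintro _ ⟨j, rfl⟩
    exact ⟨1, hh j⟩
  obtain ⟨P, hP, hJP, -, hPW, y, hy⟩ := hK (Fin (N + 1)) (fun _ => 1)
    (Ideal.span (Set.range h)) 0 k h hJ0
    (by
      refine Ideal.span_le.2 ?_
      rintro _ ⟨j, rfl⟩
      exact eval_zero_form (hh j))
    (fun i => Ideal.subset_span ⟨i, rfl⟩) le_sup_left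
  refine ⟨P, hP, hPW, fun i => hJP (Ideal.subset_span ⟨i, rfl⟩), ?_⟩
  have : IsDomain (Sx N ⧸ P) := Ideal.Quotient.isDomain P
  have htop : Algebra.adjoin ℂ (Set.range fun i : Fin (N + 1) => Ideal.Quotient.mk P (X i)) = ⊤ := by
    have h6 : (Set.range fun i : Fin (N + 1) => Ideal.Quotient.mk P (X i))
        = (Ideal.Quotient.mkₐ ℂ P) '' (Set.range (X : Fin (N + 1) → Sx N)) := by
      rw [← Set.range_comp]
      rfl
    rw [h6, ← AlgHom.map_adjoin, MvPolynomial.adjoin_range_X, Algebra.map_top,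
      AlgHom.range_eq_top]
    exact Ideal.Quotient.mkₐ_surjective ℂ P
  have halg2 : Algebra.IsAlgebraic
      (Algebra.adjoin ℂ (Set.range fun i : Fin (N + 1) => Ideal.Quotient.mk P (X i)))
      (Sx N ⧸ P) := by
    refine ⟨fun r => ?_⟩
    have h7 : r ∈ Algebra.adjoin ℂ (Set.range fun i : Fin (N + 1) =>
        Ideal.Quotient.mk P (X i)) := by
      rw [htop]
      trivial
    exact isAlgebraic_algebraMap (⟨r, h7⟩ : Algebra.adjoin ℂ (Set.range fun i : Fin (N + 1) =>
      Ideal.Quotient.mk P (X i)))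
  obtain ⟨i, hi⟩ := hTB (Fin (N + 1)) (Sx N ⧸ P) (fun i : Fin (N + 1) =>
    Ideal.Quotient.mk P (X i)) halg2 _ y hy
  have hd : DimGe P (Fintype.card (Fin (N + 1)) - k) := ⟨i, hi⟩
  rwa [Fintype.card_fin] at hd

end Pool.Agent.Lib.MP_776403_ag.SD
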