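import Pool.Agent.Lib.MP_776403_ag.SD.R.Spec

/-!
# THEOREM R: the join with a point outside of a hyperplane raises the dimension (`S_CUp`)
-/

set_option autoImplicit false

open MvPolynomial

noncomputable section

namespace Pool.Agent.Lib.MP_776403_ag.SD

namespace CUpAux

/-- The variable and independent constants are independent. -/
theorem alg_cons {B : Type} [CommRing B] [Algebra ℂ B] {e : ℕ} (m : Fin e → B)
    (hm : AlgebraicIndependent ℂ m) :
    AlgebraicIndependent ℂ (Fin.cons (Polynomial.X : Polynomial B) (fun k => Polynomial.C (m k)) :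
      Fin (e + 1) → Polynomial B) := by
  rw [algebraicIndependent_iff_injective_aeval] at hm ⊢
  have h1 : (aeval (Fin.cons (Polynomial.X : Polynomial B) (fun k => Polynomial.C (m k)) :
      Fin (e + 1) → Polynomial B) : MvPolynomial (Fin (e + 1)) ℂ →ₐ[ℂ] Polynomial B) =
      (Polynomial.mapAlgHom (aeval m)).comp (finSuccEquiv ℂ e : _ →ₐ[ℂ] _) := by
    refine MvPolynomial.algHom_ext fun j => ?_
    refine Fin.cases ?_ (fun k => ?_) j
    · rw [aeval_X, Fin.cons_zero]
      change _ = Polynomial.map _ (finSuccEquiv ℂ e (X 0))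
      rw [finSuccEquiv_X_zero, Polynomial.map_X]
    · rw [aeval_X, Fin.cons_succ]
      change _ = Polynomial.map _ (finSuccEquiv ℂ e (X k.succ))
      rw [finSuccEquiv_X_succ, Polynomial.map_C]
      change _ = Polynomial.C (aeval m (X k))
      rw [aeval_X]
  rw [h1]
  exact (Polynomial.map_injective _ hm).comp (finSuccEquiv ℂ e).injective

end CUpAux

theorem cUp : S_Null → S_TB → S_CUp := by
  intro _ hTB N P hP _ x l hxl hl e hD
  obtain ⟨i, hi⟩ := hD
  have hJ : (H.joinI P x).IsPrime := H.joinI_prime hP x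
  obtain ⟨φ, hφ⟩ : ∃ φ : Sx N →ₐ[ℂ] Polynomial (Sx N ⧸ P),
      φ = (Polynomial.mapAlgHom (Ideal.Quotient.mkₐ ℂ P)).comp (H.shP x) := ⟨_, rfl⟩
  have hφX : ∀ j, φ (X j) = Polynomial.C (Ideal.Quotient.mk P (X j)) +
      Polynomial.C (Ideal.Quotient.mk P (C (x j))) * Polynomial.X := by
    intro j
    rw [hφ]
    change Polynomial.map _ (H.shP x (X j)) = _
    have h1 : H.shP x (X j : Sx N) =
        Polynomial.C (X j) + Polynomial.C (C (x j)) * Polynomial.X := by
      rw [H.shP, aeval_X]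
    rw [h1, Polynomial.map_add, Polynomial.map_mul, Polynomial.map_C, Polynomial.map_C,
      Polynomial.map_X]
    rfl
  have hφC : ∀ a : ℂ, φ (C a) = Polynomial.C (Ideal.Quotient.mk P (C a)) := by
    intro a
    have h1 : φ (C a) = algebraMap ℂ _ a := by
      rw [← MvPolynomial.algebraMap_eq, AlgHom.commutes]
    rw [h1]
    rfl
  have hker : ∀ F ∈ H.joinI P x, φ F = 0 := by
    intro F hF
    rw [hφ]
    exact hF
  let ψ : (Sx N ⧸ H.joinI P x) →ₐ[ℂ] Polynomial (Sx N ⧸ P) :=
    Ideal.Quotient.liftₐ (H.joinI P x) φ hker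
  have hψ : ∀ F, ψ (Ideal.Quotient.mk (H.joinI P x) F) = φ F := fun F => rfl
  have hl0 : Ideal.Quotient.mk P (X l) = 0 := Ideal.Quotient.eq_zero_iff_mem.2 hl
  have hs : φ (C (x l)⁻¹ * X l) = Polynomial.X := by
    rw [map_mul, hφC, hφX, hl0, Polynomial.C_0, zero_add, ← mul_assoc, ← Polynomial.C_mul,
      ← map_mul, ← C_mul, inv_mul_cancel₀ hxl, C_1, map_one, Polynomial.C_1, one_mul]
  have ht : ∀ j, φ (X j - C (x j) * (C (x l)⁻¹ * X l)) =
      Polynomial.C (Ideal.Quotient.mk P (X j)) := by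
    intro j
    rw [map_sub, map_mul, hs, hφC, hφX, add_sub_cancel_right]
  have hy : AlgebraicIndependent ℂ (Fin.cons (Ideal.Quotient.mk (H.joinI P x) (C (x l)⁻¹ * X l))
      (fun k => Ideal.Quotient.mk (H.joinI P x)
        (X (i k) - C (x (i k)) * (C (x l)⁻¹ * X l))) : Fin (e + 1) → Sx N ⧸ H.joinI P x) := by
    refine AlgebraicIndependent.of_comp (A' := Polynomial (Sx N ⧸ P)) ψ ?_
    have h1 := CUpAux.alg_cons _ hi
    have h2 : (ψ ∘ (Fin.cons (Ideal.Quotient.mk (H.joinI P x) (C (x l)⁻¹ * X l))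
      (fun k => Ideal.Quotient.mk (H.joinI P x)
        (X (i k) - C (x (i k)) * (C (x l)⁻¹ * X l))) : Fin (e + 1) → Sx N ⧸ H.joinI P x)) =
        (Fin.cons (Polynomial.X : Polynomial (Sx N ⧸ P))
          (fun k => Polynomial.C (Ideal.Quotient.mk P (X (i k)))) :
            Fin (e + 1) → Polynomial (Sx N ⧸ P)) := by
      funext j
      refine Fin.cases ?_ (fun k => ?_) j
      · rw [Function.comp_apply, Fin.cons_zero, Fin.cons_zero, hψ, hs]
      · rw [Function.comp_apply, Fin.cons_succ, Fin.cons_succ, hψ, ht]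
    rw [h2]
    exact h1
  have htop : Algebra.adjoin ℂ (Set.range fun j : Fin (N + 1) =>
      Ideal.Quotient.mk (H.joinI P x) (X j)) = ⊤ := by
    rw [eq_top_iff]
    intro q _
    obtain ⟨F, rfl⟩ := Ideal.Quotient.mk_surjective q
    induction F using MvPolynomial.induction_on with
    | C a => exact Subalgebra.algebraMap_mem _ a
    | add p q hp hq =>
      rw [map_add]
      exact Subalgebra.add_mem _ (hp trivial) (hq trivial)
    | mul_X p j hp =>
      rw [map_mul]
      exact Subalgebra.mul_mem _ (hp trivial) (Algebra.subset_adjoin ⟨j, rfl⟩)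
  have halg : Algebra.IsAlgebraic (Algebra.adjoin ℂ (Set.range fun j : Fin (N + 1) =>
      Ideal.Quotient.mk (H.joinI P x) (X j))) (Sx N ⧸ H.joinI P x) := by
    refine ⟨fun q => ?_⟩
    have hq : q ∈ Algebra.adjoin ℂ (Set.range fun j : Fin (N + 1) =>
        Ideal.Quotient.mk (H.joinI P x) (X j)) := by
      rw [htop]
      trivial
    have h3 := isIntegral_algebraMap (R := Algebra.adjoin ℂ (Set.range fun j : Fin (N + 1) =>
      Ideal.Quotient.mk (H.joinI P x) (X j))) (A := Sx N ⧸ H.joinI P x) (x := ⟨q, hq⟩)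
    exact h3.isAlgebraic
  have : IsDomain (Sx N ⧸ H.joinI P x) := (Ideal.Quotient.isDomain_iff_prime _).2 hJ
  obtain ⟨i', hi'⟩ := hTB (Fin (N + 1)) (Sx N ⧸ H.joinI P x)
    (fun j => Ideal.Quotient.mk (H.joinI P x) (X j)) halg (e + 1) _ hy
  exact ⟨i', hi'⟩

end Pool.Agent.Lib.MP_776403_ag.SD
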