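import Pool.Agent.Lib.MP_776403_ag.SD.R.Spec

/-!
Dimensions of primes decrease strictly.
-/

set_option autoImplicit false

open MvPolynomial

noncomputable section

namespace Pool.Agent.Lib.MP_776403_ag.SD

/-- Adding one more algebraically independent element: a non zero element `a` of a domain `A` over
`ℂ` that dies under an algebra map `f`, while the images of the `x i` stay algebraically
independent, is transcendental over the algebra generated by the `x i`. -/
private theorem CDimAux.transc {ι : Type} {A A' : Type} [CommRing A] [IsDomain A] [Algebra ℂ A]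
    [CommRing A'] [Algebra ℂ A'] (f : A →ₐ[ℂ] A') (x : ι → A)
    (hx' : AlgebraicIndependent ℂ (fun i => f (x i))) (a : A) (ha : a ≠ 0) (hfa : f a = 0) :
    Transcendental (Algebra.adjoin ℂ (Set.range x)) a := by
  intro halg
  obtain ⟨q, hq0, hq⟩ := halg.exists_nonzero_coeff_and_aeval_eq_zero
    (mem_nonZeroDivisors_of_ne_zero ha)
  -- the constant coefficient dies under `f`
  have h1 : f ((q.coeff 0 : Algebra.adjoin ℂ (Set.range x)) : A) = 0 := by
    have h2 : Polynomial.aeval a q
        = (q.sum fun n c => (c : A) * a ^ n) := by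
      rw [Polynomial.aeval_eq_sum_range, Polynomial.sum_over_range]
      · refine Finset.sum_congr rfl ?_
        intro n _
        rfl
      · intro n
        simp
    have h3 : f (Polynomial.aeval a q)
        = f ((q.coeff 0 : Algebra.adjoin ℂ (Set.range x)) : A) := by
      rw [h2, Polynomial.sum_over_range q (by intro n; simp), map_sum,
        Finset.sum_range_succ']
      have h4 : ∀ n ∈ Finset.range q.natDegree,
          f (((q.coeff (n + 1) : Algebra.adjoin ℂ (Set.range x)) : A) * a ^ (n + 1)) = 0 := by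
        intro n _
        rw [map_mul, map_pow, hfa, zero_pow (Nat.succ_ne_zero n), mul_zero]
      rw [Finset.sum_eq_zero h4, zero_add, pow_zero, mul_one]
    rw [← h3, hq, map_zero]
  -- it is a polynomial in the `x i`
  have h5 : ((q.coeff 0 : Algebra.adjoin ℂ (Set.range x)) : A)
      ∈ (MvPolynomial.aeval x : MvPolynomial ι ℂ →ₐ[ℂ] A).range := by
    rw [← Algebra.adjoin_range_eq_range_aeval]
    exact (q.coeff 0).2
  obtain ⟨p, hp⟩ := h5
  have hp' : MvPolynomial.aeval x p = ((q.coeff 0 : Algebra.adjoin ℂ (Set.range x)) : A) := hp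
  have h6 : MvPolynomial.aeval (fun i => f (x i)) p = 0 := by
    have h7 : f (MvPolynomial.aeval x p) = MvPolynomial.aeval (fun i => f (x i)) p := by
      rw [← MvPolynomial.comp_aeval_apply]
    rw [← h7, hp', h1]
  have h8 : p = 0 := by
    have h9 := (algebraicIndependent_iff.mp hx') p h6
    exact h9
  apply hq0
  apply Subtype.ext
  rw [← hp', h8, map_zero]
  rfl

theorem cDim : S_TB → S_CDim := by
  intro hTB N P P' hP hP' hle hne e hdim
  obtain ⟨i, hi⟩ := hdim
  have := hP
  obtain ⟨F, hFP', hFP⟩ : ∃ F, F ∈ P' ∧ F ∉ P := by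
    by_contra hcon
    push Not at hcon
    exact hne (le_antisymm hle (fun F hF => hcon F hF))
  let f : (Sx N ⧸ P) →ₐ[ℂ] (Sx N ⧸ P') := Ideal.Quotient.factorₐ ℂ hle
  have hf : ∀ G : Sx N, f (Ideal.Quotient.mk P G) = Ideal.Quotient.mk P' G := fun G => rfl
  have hx' : AlgebraicIndependent ℂ
      (fun k => f (Ideal.Quotient.mk P (X (i k)))) := by
    have h1 : (fun k => f (Ideal.Quotient.mk P (X (i k))))
        = fun k => Ideal.Quotient.mk P' (X (i k)) := by
      funext k
      exact hf _
    rw [h1]
    exact hi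
  have hx : AlgebraicIndependent ℂ (fun k => Ideal.Quotient.mk P (X (i k) : Sx N)) :=
    AlgebraicIndependent.of_comp f hx'
  have ha : Ideal.Quotient.mk P F ≠ 0 := by
    intro h0
    exact hFP (Ideal.Quotient.eq_zero_iff_mem.mp h0)
  have hfa : f (Ideal.Quotient.mk P F) = 0 := by
    rw [hf]
    exact Ideal.Quotient.eq_zero_iff_mem.mpr hFP'
  have htr := CDimAux.transc f (fun k => Ideal.Quotient.mk P (X (i k) : Sx N)) hx'
    (Ideal.Quotient.mk P F) ha hfa
  have hopt := (hx.option_iff_transcendental (Ideal.Quotient.mk P F)).mpr htr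
  have hfin := hopt.comp (finSuccEquiv e) (finSuccEquiv e).injective
  have halg : Algebra.IsAlgebraic
      (Algebra.adjoin ℂ (Set.range fun j : Fin (N + 1) => Ideal.Quotient.mk P (X j : Sx N)))
      (Sx N ⧸ P) := by
    have htop : Algebra.adjoin ℂ
        (Set.range fun j : Fin (N + 1) => Ideal.Quotient.mk P (X j : Sx N)) = ⊤ := by
      rw [Algebra.adjoin_range_eq_range_aeval, AlgHom.range_eq_top]
      intro y
      obtain ⟨G, rfl⟩ := Ideal.Quotient.mk_surjective y
      refine ⟨G, ?_⟩
      have h2 : (MvPolynomial.aeval fun j : Fin (N + 1) => Ideal.Quotient.mk P (X j : Sx N))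
          = Ideal.Quotient.mkₐ ℂ P := by
        apply MvPolynomial.algHom_ext
        intro j
        rw [MvPolynomial.aeval_X]
        rfl
      rw [h2]
      rfl
    constructor
    intro y
    have hy : y ∈ Algebra.adjoin ℂ
        (Set.range fun j : Fin (N + 1) => Ideal.Quotient.mk P (X j : Sx N)) := by
      rw [htop]
      exact Algebra.mem_top
    exact isAlgebraic_algebraMap
      (⟨y, hy⟩ : Algebra.adjoin ℂ
        (Set.range fun j : Fin (N + 1) => Ideal.Quotient.mk P (X j : Sx N)))
  obtain ⟨j, hj⟩ := hTB (Fin (N + 1)) (Sx N ⧸ P)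
    (fun j : Fin (N + 1) => Ideal.Quotient.mk P (X j : Sx N)) halg (e + 1) _ hfin
  exact ⟨j, hj⟩

end Pool.Agent.Lib.MP_776403_ag.SD
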