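import Pool.Agent.Lib.MP_776403_ag.SD.R.Spec

/-!
# THEOREM R, `S_CElim` (helper33): elimination with additional linear forms

Copy of `CloseAux.key` of `L/Close.lean` with the linear forms `h i` added to the generators.
-/

set_option autoImplicit false

open MvPolynomial

noncomputable section

namespace Pool.Agent.Lib.MP_776403_ag.SD

namespace CElimAux

variable {N : ℕ}

variable {e : ℕ}

/-- The generators of the ideal `b_x`. -/
def gen (I : Ideal (Sx N)) (l : Fin (N + 1)) (h : Fin e → Sx N) (x : Vx N) :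
    (I × ℕ) ⊕ Option (Fin e) → Sx N
  | Sum.inl p => (linS x (p.1 : Sx N)).coeff p.2
  | Sum.inr none => X l
  | Sum.inr (some i) => h i

/-- The generators with `x` generic. -/
def genU (I : Ideal (Sx N)) (l : Fin (N + 1)) (h : Fin e → Sx N) :
    (I × ℕ) ⊕ Option (Fin e) → MvPolynomial (Fin (N + 1)) (Sx N)
  | Sum.inl p => (linU (p.1 : Sx N)).coeff p.2
  | Sum.inr none => X l
  | Sum.inr (some i) => MvPolynomial.map C (h i)

theorem map_map_C (x : Vx N) (R : Sx N) :
    MvPolynomial.map (eval x) (MvPolynomial.map (C : ℂ →+* Sx N) R) = R := by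
  rw [map_map]
  have h1 : (eval x).comp (C : ℂ →+* Sx N) = RingHom.id ℂ := by
    ext a
    all_goals simp
  rw [h1, MvPolynomial.map_id]

theorem genU_map (hU : S_LinU) (I : Ideal (Sx N)) (l : Fin (N + 1)) (h : Fin e → Sx N) (x : Vx N)
    (k : (I × ℕ) ⊕ Option (Fin e)) :
    MvPolynomial.map (eval x) (genU I l h k) = gen I l h x k := by
  rcases k with p | (_ | i)
  · exact hU N x p.1 p.2
  · simp [genU, gen]
  · exact map_map_C x (h i)

theorem gen_hom (hS : S_LinS) (I : Ideal (Sx N)) (l : Fin (N + 1)) (h : Fin e → Sx N)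
    (hh : ∀ i, (h i).IsHomogeneous 1) (x : Vx N)
    (k : (I × ℕ) ⊕ Option (Fin e)) : ∃ n : ℕ, (gen I l h x k).IsHomogeneous n := by
  rcases k with p | (_ | i)
  · exact ⟨p.2, (hS N x p.1 p.2).2.2.1⟩
  · exact ⟨1, isHomogeneous_X ℂ l⟩
  · exact ⟨1, hh i⟩

/-- The exponents of degree `ρ`. -/
def J (N ρ : ℕ) : Finset (Fin (N + 1) →₀ ℕ) := Finset.finsuppAntidiag Finset.univ ρ

theorem mem_J {ρ : ℕ} (d : Fin (N + 1) →₀ ℕ) : d ∈ J N ρ ↔ d.degree = ρ := by
  unfold J
  rw [Finset.mem_finsuppAntidiag, Finsupp.degree_eq_sum]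
  exact ⟨fun h => h.1, fun h => ⟨h, Finset.subset_univ _⟩⟩

theorem eval_comp (v : Vx N) (R : Sx N) (ρ : ℕ) :
    eval v (homogeneousComponent ρ R) = ∑ ν : ↥(J N ρ), coeff ν.1 R * ∏ i, v i ^ ν.1 i := by
  rw [homogeneousComponent_apply, map_sum]
  rw [Finset.sum_coe_sort (J N ρ) (fun d => coeff d R * ∏ i, v i ^ d i)]
  have h1 : ∀ d : Fin (N + 1) →₀ ℕ, eval v (monomial d (coeff d R)) =
      coeff d R * ∏ i, v i ^ d i := by
    intro d
    rw [eval_monomial, Finsupp.prod_fintype _ _ (fun i => pow_zero _)]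
  simp only [h1]
  refine Finset.sum_subset ?_ ?_
  · intro d hd
    rw [mem_J]
    exact (Finset.mem_filter.mp hd).2
  · intro d hd hd'
    rw [mem_J] at hd
    have h2 : coeff d R = 0 := by
      by_contra h3
      exact hd' (Finset.mem_filter.mpr ⟨mem_support_iff.mpr h3, hd⟩)
    rw [h2, zero_mul]

theorem comp_zero (v : Vx N) (R : Sx N) (h : ∀ a : ℂ, eval (a • v) R = 0) (ρ : ℕ) :
    eval v (homogeneousComponent ρ R) = 0 := by
  have h1 : (∑ m ∈ Finset.range (R.totalDegree + 1),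
      Polynomial.C (eval v (homogeneousComponent m R)) * Polynomial.X ^ m) = 0 := by
    refine Polynomial.funext fun a => ?_
    rw [Polynomial.eval_finsetSum, Polynomial.eval_zero]
    have h2 := h a
    rw [← sum_homogeneousComponent R, map_sum] at h2
    rw [← h2]
    refine Finset.sum_congr rfl fun m _ => ?_
    rw [eval_smul_form (homogeneousComponent_isHomogeneous m R)]
    simp only [Polynomial.eval_mul, Polynomial.eval_C, Polynomial.eval_pow, Polynomial.eval_X]
    ring
  by_cases hρ : ρ < R.totalDegree + 1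
  · have h3 := congrArg (fun p => Polynomial.coeff p ρ) h1
    simp only [Polynomial.finsetSum_coeff, Polynomial.coeff_C_mul, Polynomial.coeff_X_pow,
      Polynomial.coeff_zero] at h3
    rw [Finset.sum_eq_single ρ] at h3
    · simpa using h3
    · intro b _ hb
      rw [if_neg (Ne.symm hb), mul_zero]
    · intro hn
      exact absurd (Finset.mem_range.mpr hρ) hn
  · rw [homogeneousComponent_eq_zero ρ R (by lia), map_zero]

theorem key (hU : S_LinU) (hS : S_LinS) (I : Ideal (Sx N)) (l : Fin (N + 1)) (h : Fin e → Sx N)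
    (hh : ∀ i, (h i).IsHomogeneous 1) (y : Vx N) (ρ : ℕ)
    (hρ : ∀ F : Sx N, F.IsHomogeneous ρ → F ∈ Ideal.span (Set.range (gen I l h y))) :
    ∃ Δ : Sx N, eval y Δ = 1 ∧
      ∀ x : Vx N, eval x Δ ≠ 0 → ∀ v : Vx N, (∀ k, eval v (gen I l h x k) = 0) → v = 0 := by
  classical
  have hc : ∀ μ : ↥(J N ρ), ∃ c : ((I × ℕ) ⊕ Option (Fin e)) →₀ Sx N,
      c.sum (fun i a => a * gen I l h y i) = monomial μ.1 (1 : ℂ) := by
    intro μ
    refine Finsupp.mem_ideal_span_range_iff_exists_finsupp.mp (hρ _ ?_)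
    exact isHomogeneous_monomial 1 ((mem_J μ.1).mp μ.2)
  choose c hc using hc
  let R : ↥(J N ρ) → MvPolynomial (Fin (N + 1)) (Sx N) := fun μ =>
    (c μ).sum (fun k a => MvPolynomial.map C a * genU I l h k)
  have hR : ∀ (x : Vx N) (μ : ↥(J N ρ)), MvPolynomial.map (eval x) (R μ) =
      (c μ).sum fun k a => a * gen I l h x k := by
    intro x μ
    change MvPolynomial.map (eval x) ((c μ).sum (fun k a => MvPolynomial.map C a * genU I l h k)) = _
    unfold Finsupp.sum
    rw [map_sum]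
    refine Finset.sum_congr rfl fun k _ => ?_
    rw [map_mul, genU_map hU, map_map_C]
  refine ⟨Matrix.det (Matrix.of fun μ ν : ↥(J N ρ) => coeff ν.1 (R μ)), ?_, ?_⟩
  · rw [RingHom.map_det]
    have h1 : (eval y).mapMatrix (Matrix.of fun μ ν : ↥(J N ρ) => coeff ν.1 (R μ)) = 1 := by
      ext μ ν
      rw [RingHom.mapMatrix_apply, Matrix.map_apply, Matrix.of_apply, ← coeff_map, hR, hc,
        coeff_monomial, Matrix.one_apply]
      by_cases hμ : μ = ν
      · rw [if_pos hμ, if_pos (congrArg Subtype.val hμ)]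
      · rw [if_neg hμ, if_neg (fun h' => hμ (Subtype.ext h'))]
    rw [h1, Matrix.det_one]
  · intro x hx v hv
    rw [RingHom.map_det] at hx
    have h0 : ∀ μ : ↥(J N ρ), ∑ ν : ↥(J N ρ), coeff ν.1 ((c μ).sum fun k a => a * gen I l h x k) *
        ∏ i, v i ^ ν.1 i = 0 := by
      intro μ
      rw [← eval_comp]
      refine comp_zero v _ (fun a => ?_) ρ
      unfold Finsupp.sum
      rw [map_sum]
      refine Finset.sum_eq_zero fun k _ => ?_
      obtain ⟨n, hn⟩ := gen_hom hS I l h hh x k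
      rw [map_mul, eval_smul_form hn, hv k, mul_zero, mul_zero]
    have h1 : (fun ν : ↥(J N ρ) => ∏ i, v i ^ ν.1 i) = 0 := by
      refine Matrix.eq_zero_of_mulVec_eq_zero hx ?_
      funext μ
      rw [Matrix.mulVec, dotProduct]
      simp only [RingHom.mapMatrix_apply, Matrix.map_apply, Matrix.of_apply]
      rw [Pi.zero_apply, ← h0 μ]
      refine Finset.sum_congr rfl fun ν _ => ?_
      rw [← coeff_map, hR]
    funext i
    have h2 : Finsupp.single i ρ ∈ J N ρ := by
      rw [mem_J, Finsupp.degree_single]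
    have h3 := congrFun h1 ⟨Finsupp.single i ρ, h2⟩
    have h4 : ∏ j, v j ^ (Finsupp.single i ρ : Fin (N + 1) →₀ ℕ) j = v i ^ ρ := by
      rw [Finset.prod_eq_single i]
      · rw [Finsupp.single_eq_same]
      · intro j _ hj
        rw [Finsupp.single_eq_of_ne hj, pow_zero]
      · intro hi
        exact absurd (Finset.mem_univ i) hi
    have h5 : v i ^ ρ = 0 := by
      rw [← h4]
      exact h3
    exact eq_zero_of_pow_eq_zero h5

end CElimAux

open CElimAux in
theorem cElim : S_LinU → S_LinS → S_D6' → S_CElim := by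
  intro hU hS hD N I l y e h hh hy
  -- zeros of `b_x`
  have hz : ∀ x v : Vx N, (∀ k, eval v (gen I l h x k) = 0) ↔
      (v l = 0 ∧ (∀ i, eval v (h i) = 0) ∧ ∀ F ∈ I, lin x v F = 0) := by
    intro x v
    constructor
    · intro hgen
      refine ⟨?_, fun i => hgen (Sum.inr (some i)), fun F hF => ?_⟩
      · have := hgen (Sum.inr none)
        rwa [gen, eval_X] at this
      · ext n
        rw [← (hS N x F n).2.1 v, Polynomial.coeff_zero]
        exact hgen (Sum.inl (⟨F, hF⟩, n))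
    · rintro ⟨h1, h2, h3⟩ (⟨⟨F, hF⟩, n⟩ | (_ | i))
      · change eval v ((linS x F).coeff n) = 0
        rw [(hS N x F n).2.1, h3 F hF, Polynomial.coeff_zero]
      · change eval v (X l) = 0
        rw [eval_X, h1]
      · exact h2 i
  have h1 : ∀ z ∈ zer (Ideal.span (Set.range (gen I l h y))), z = 0 := by
    intro v hv
    have hgen : ∀ k, eval v (gen I l h y k) = 0 := fun k =>
      hv _ (Ideal.subset_span (Set.mem_range_self k))
    obtain ⟨h2, h3, h4⟩ := (hz y v).1 hgen
    exact hy v h2 h3 h4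
  obtain ⟨ρ, hρ⟩ := hD N _ h1
  obtain ⟨Δ, hΔ1, hΔ2⟩ := key hU hS I l h hh y ρ (hρ ρ le_rfl)
  refine ⟨Δ, by rw [hΔ1]; exact one_ne_zero, ?_⟩
  intro x hx v hv1 hv2 hv3
  exact hΔ2 x hx v ((hz x v).2 ⟨hv1, hv2, hv3⟩)

end Pool.Agent.Lib.MP_776403_ag.SD
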