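import Pool.Agent.Lib.MP_776403_ag.SD.R.Spec

/-!
# THEOREM R: CJn, the join and its lines
-/

set_option autoImplicit false

open MvPolynomial

noncomputable section

namespace Pool.Agent.Lib.MP_776403_ag.SD

theorem cJn : S_Null → S_CJn := by
  intro _ N I P hP hh x h4
  refine ⟨H.joinI_prime hP x, H.joinI_hom hP hh x, ?_, ?_, ?_⟩
  · intro z hz s
    have key : ∀ F ∈ H.joinI P x, (H.shP x F).map (eval z) = 0 := by
      intro F hF
      ext n
      rw [Polynomial.coeff_map, Polynomial.coeff_zero]
      refine hz _ ?_
      rw [H.mem_joinI hP hh] at hF ⊢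
      intro w hw t
      have k1 : (H.shP x F).map (eval (w + t • x)) = 0 := by
        refine poly_ext fun r => ?_
        rw [H.shP_eval, Polynomial.eval_zero]
        have k2 := hF w hw (t + r)
        rwa [add_smul, ← add_assoc] at k2
      have k3 := congrArg (fun q => q.coeff n) k1
      simp only [Polynomial.coeff_map, Polynomial.coeff_zero] at k3
      exact k3
    intro F hF
    rw [← H.shP_eval, key F hF, Polynomial.eval_zero]
  · intro F hF
    rw [H.mem_joinI hP hh]
    intro z hz s
    have k1 := h4 z hz s 1
    rw [one_smul, add_comm] at k1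
    exact k1 F hF
  · intro z hzz s t F hF
    have k1 : ∀ G : Sx N, (∀ w, eval w G = eval (s • x + t • w) F) → G ∈ H.joinI P x := by
      intro G hG
      rw [H.mem_joinI hP hh]
      intro w hw r
      rw [hG]
      have k2 := h4 w hw (s + t * r) t
      have k3 : (s + t * r) • x + t • w = s • x + t • (w + r • x) := by module
      rw [k3] at k2
      exact k2 F hF
    have k4 := hzz _ (k1 (H.affP x s t F) fun w => H.eval_affP x s t w F)
    rwa [H.eval_affP] at k4

end Pool.Agent.Lib.MP_776403_ag.SD
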