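import Pool.Agent.Lib.MP_776403_ag.SD.R.Spec
import Pool.Agent.Lib.MP_776403_ag.SD.E.LineI
import Pool.Agent.Lib.MP_776403_ag.SD.E.Pt

/-!
# THEOREM R, module CLin: linear sections of a cone
-/

set_option autoImplicit false

open MvPolynomial

noncomputable section

namespace Pool.Agent.Lib.MP_776403_ag.SD

namespace CLinAux

variable {N : ℕ}

theorem mem_line (z : Vx N) (F : Sx N) : F ∈ lineI z 0 ↔ ∀ s : ℂ, eval (s • z) F = 0 := by
  constructor
  · intro h s
    have h1 := h s 0
    rw [smul_zero, add_zero] at h1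
    exact h1
  · intro h s t
    rw [smul_zero, add_zero]
    exact h s

/-- restriction to the line through the origin and `z` -/
def ps (z : Vx N) : Sx N →ₐ[ℂ] Polynomial ℂ := aeval fun i => Polynomial.C (z i) * Polynomial.X

theorem eval_ps (z : Vx N) (F : Sx N) (t : ℂ) : (ps z F).eval t = eval (t • z) F := by
  have h : (Polynomial.evalRingHom t).comp (ps z : Sx N →+* Polynomial ℂ) = eval (t • z) := by
    refine MvPolynomial.ringHom_ext (fun c => ?_) fun i => ?_
    · rw [RingHom.comp_apply, eval_C]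
      show Polynomial.eval t (ps z (C c)) = c
      rw [ps, aeval_C, Polynomial.algebraMap_eq, Polynomial.eval_C]
    · rw [RingHom.comp_apply, eval_X]
      show Polynomial.eval t (ps z (X i)) = _
      rw [ps, aeval_X, Polynomial.eval_mul, Polynomial.eval_C, Polynomial.eval_X]
      show z i * t = t * z i
      ring
  exact RingHom.congr_fun h F

theorem ps_zero (z : Vx N) (F : Sx N) (h : F ∈ lineI z 0) : ps z F = 0 := by
  refine Polynomial.funext fun t => ?_
  rw [eval_ps, Polynomial.eval_zero]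
  exact (mem_line z F).1 h t

theorem dim_line (z : Vx N) (i : Fin (N + 1)) (hi : z i ≠ 0) : DimGe (lineI z 0) 1 := by
  refine ⟨fun _ => i, ?_⟩
  have h1 : ∀ a : Sx N, a ∈ lineI z 0 → ps z a = 0 := ps_zero z
  refine AlgebraicIndependent.of_comp (Ideal.Quotient.liftₐ (lineI z 0) (ps z) h1) ?_
  have h2 : (⇑(Ideal.Quotient.liftₐ (lineI z 0) (ps z) h1) ∘
      fun _ : Fin 1 => Ideal.Quotient.mk (lineI z 0) (X i)) =
      fun _ : Fin 1 => (Polynomial.C (z i) * Polynomial.X : Polynomial ℂ) := by
    funext k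
    show Ideal.Quotient.liftₐ (lineI z 0) (ps z) h1 (Ideal.Quotient.mk (lineI z 0) (X i)) = _
    have h3 : Ideal.Quotient.liftₐ (lineI z 0) (ps z) h1 (Ideal.Quotient.mk (lineI z 0) (X i)) =
        ps z (X i) := rfl
    rw [h3, ps, aeval_X]
  rw [h2, algebraicIndependent_unique_type_iff]
  rintro ⟨p, hp0, hp⟩
  apply hp0
  have h4 : p.comp (Polynomial.C (z i) * Polynomial.X) = 0 := by
    rw [← hp]
    rfl
  have hz : z i ∈ nonZeroDivisors ℂ := mem_nonZeroDivisors_of_ne_zero hi
  exact (Polynomial.comp_C_mul_X_eq_zero_iff hz).1 h4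

/-- the linear form with coefficients `a` -/
def lf : Vx N →ₗ[ℂ] Sx N where
  toFun a := ∑ i, C (a i) * X i
  map_add' a b := by
    rw [← Finset.sum_add_distrib]
    refine Finset.sum_congr rfl fun i _ => ?_
    rw [Pi.add_apply, map_add, add_mul]
  map_smul' c a := by
    rw [RingHom.id_apply, MvPolynomial.smul_eq_C_mul, Finset.mul_sum]
    refine Finset.sum_congr rfl fun i _ => ?_
    rw [Pi.smul_apply, smul_eq_mul, map_mul, mul_assoc]

theorem lf_apply (a : Vx N) : lf a = ∑ i, C (a i) * X i := rfl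

theorem lf_single (i : Fin (N + 1)) : lf (Pi.single i (1 : ℂ)) = (X i : Sx N) := by
  rw [lf_apply, Finset.sum_eq_single i]
  · rw [Pi.single_eq_same, C_1, one_mul]
  · intro j _ hj
    rw [Pi.single_eq_of_ne hj, C_0, zero_mul]
  · intro h
    exact absurd (Finset.mem_univ i) h

theorem lf_hom (a : Vx N) : (lf a).IsHomogeneous 1 := by
  rw [lf_apply]
  refine IsHomogeneous.sum _ _ _ fun i _ => ?_
  have h := (isHomogeneous_C (Fin (N + 1)) (a i)).mul (isHomogeneous_X ℂ i)
  rwa [zero_add] at h

/-- a linear form outside of finitely many ideals none of which contains all variables -/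
theorem exists_form (Q : Set (Ideal (Sx N))) (hQ : Q.Finite) :
    ∃ a : Vx N, ∀ P ∈ Q, (∃ i : Fin (N + 1), (X i : Sx N) ∉ P) → lf a ∉ P := by
  classical
  let W : Ideal (Sx N) → Subspace ℂ (Vx N) := fun P => (P.restrictScalars ℂ).comap lf
  have hW : ∀ (P : Ideal (Sx N)) (a : Vx N), a ∈ W P ↔ lf a ∈ P := fun P a => Iff.rfl
  let s : Finset (Subspace ℂ (Vx N)) :=
    (hQ.toFinset.filter fun P => ∃ i : Fin (N + 1), (X i : Sx N) ∉ P).image W
  have hs : ⊤ ∉ s := by
    intro h
    obtain ⟨P, hP, hPt⟩ := Finset.mem_image.1 h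
    obtain ⟨_, i, hi⟩ := Finset.mem_filter.1 hP
    apply hi
    have h1 : Pi.single i (1 : ℂ) ∈ W P := by
      rw [hPt]
      exact Submodule.mem_top
    rw [hW, lf_single] at h1
    exact h1
  have h2 := Subspace.biUnion_ne_univ_of_top_notMem hs
  obtain ⟨a, ha⟩ := (Set.ne_univ_iff_exists_notMem _).1 h2
  refine ⟨a, fun P hP hi h => ha ?_⟩
  rw [Set.mem_iUnion₂]
  refine ⟨W P, ?_, (hW P a).2 h⟩
  exact Finset.mem_image.2 ⟨P, Finset.mem_filter.2 ⟨hQ.mem_toFinset.2 hP, hi⟩, rfl⟩

theorem sup_hom {b : Ideal (Sx N)} (hb : IsHom b) {h : Sx N} (hh : h.IsHomogeneous 1) :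
    IsHom (b ⊔ Ideal.span {h}) := by
  intro F hF m
  obtain ⟨G, hG, K, hK, rfl⟩ := Submodule.mem_sup.1 hF
  obtain ⟨c, rfl⟩ := Ideal.mem_span_singleton.1 hK
  rw [map_add]
  refine Ideal.add_mem _ (Ideal.mem_sup_left (hb G hG m)) (Ideal.mem_sup_right ?_)
  rcases m with _ | m
  · have h0 : homogeneousComponent 0 (h * c) = 0 := by
      have h1 : coeff 0 h = 0 := by
        by_contra hne
        have := hh hne
        simp at this
      have h2 : coeff 0 (h * c) = coeff 0 h * coeff 0 c := by
        rw [← constantCoeff_eq, map_mul]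
      rw [homogeneousComponent_zero, h2, h1, zero_mul, C_0]
    rw [h0]
    exact Ideal.zero_mem _
  · have h1 := PtAux.hc_mul hh c m
    rw [add_comm 1 m] at h1
    rw [h1]
    exact Ideal.mul_mem_right _ _ (Ideal.mem_span_singleton_self h)

end CLinAux

open CLinAux in
theorem cLin : S_CDim → S_D2c → S_CLin := by
  intro hCD hD2 N e
  induction e with
  | zero =>
    intro b hb hP
    refine ⟨fun i => i.elim0, fun i => i.elim0, ?_⟩
    intro z hz _
    by_contra hne
    obtain ⟨i, hi⟩ := Function.ne_iff.1 hne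
    refine hP (lineI z 0) (LineIAux.prime z 0) (LineIAux.isHom z 0) ?_ (dim_line z i hi)
    intro F hF
    rw [mem_line]
    intro s
    exact H.smul_zer hb hz s F hF
  | succ e ih =>
    intro b hb hP
    have hfin := Ideal.finite_minimalPrimes_of_isNoetherianRing (Sx N) b
    obtain ⟨a, ha⟩ := exists_form b.minimalPrimes hfin
    have hh0 := lf_hom a
    obtain ⟨h, hh, hz⟩ := ih (b ⊔ Ideal.span {lf a}) (sup_hom hb hh0) (by
      intro P hPp hPh hle hdim
      have hbP : b ≤ P := le_sup_left.trans hle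
      have haP : lf a ∈ P := hle (Ideal.mem_sup_right (Ideal.mem_span_singleton_self _))
      obtain ⟨Q, hQ, hQP⟩ := Ideal.exists_minimalPrimes_le hbP
      have hQp : Q.IsPrime := hQ.1.1
      have hbQ : b ≤ Q := hQ.1.2
      -- `Q` is homogeneous
      have hQh : IsHom Q := by
        obtain ⟨Q', hQ'p, hQ'h, hbQ', hQ'Q, _⟩ := hD2 (Fin (N + 1)) (fun _ => 1) b Q (by
          intro F hF m
          have := hb F hF m
          rw [show (fun _ : Fin (N + 1) => 1) = (1 : Fin (N + 1) → ℕ) from rfl]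
          exact this) hQp hbQ
        have hQQ : Q ≤ Q' := hQ.2 ⟨hQ'p, hbQ'⟩ hQ'Q
        have hEq : Q' = Q := le_antisymm hQ'Q hQQ
        intro F hF m
        have := hQ'h F (by rw [hEq]; exact hF) m
        rw [hEq] at this
        exact this
      by_cases hall : ∃ i : Fin (N + 1), (X i : Sx N) ∉ Q
      · have hne : Q ≠ P := by
          intro hQPe
          exact ha Q hQ hall (hQPe ▸ haP)
        exact hP Q hQp hQh hbQ (hCD N Q P hQp hPp hQP hne (e + 1) hdim)
      · push Not at hall
        obtain ⟨i, hi⟩ := hdim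
        have h0 : Ideal.Quotient.mk P (X (i 0)) = 0 :=
          Ideal.Quotient.eq_zero_iff_mem.2 (hQP (hall (i 0)))
        have := hi.ne_zero 0
        exact this h0)
    refine ⟨Fin.cons (lf a) h, ?_, ?_⟩
    · intro i
      refine Fin.cases ?_ (fun j => ?_) i
      · rw [Fin.cons_zero]
        exact hh0
      · rw [Fin.cons_succ]
        exact hh j
    · intro z hzb hzh
      apply hz z
      · intro F hF
        obtain ⟨G, hG, K, hK, rfl⟩ := Submodule.mem_sup.1 hF
        obtain ⟨c, rfl⟩ := Ideal.mem_span_singleton.1 hK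
        have h0 := hzh 0
        rw [Fin.cons_zero] at h0
        rw [map_add, map_mul, h0, zero_mul, add_zero]
        exact hzb G hG
      · intro i
        have h0 := hzh i.succ
        rw [Fin.cons_succ] at h0
        exact h0

end Pool.Agent.Lib.MP_776403_ag.SD
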