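import Pool.Agent.Lib.MP_776403_ag.SD.R.Spec
import Pool.Agent.Lib.MP_776403_ag.SD.Bas

/-!
# THEOREM R: large cones of lines through general points give large cones through all points
-/

set_option autoImplicit false

open MvPolynomial

noncomputable section

namespace Pool.Agent.Lib.MP_776403_ag.SD

namespace CloseDAux

variable {N : ℕ}

/-- The generators of the ideal `b`. -/
def gen (I : Ideal (Sx N)) (l : Fin (N + 1)) (x : Vx N) : (I × ℕ) ⊕ Unit → Sx N
  | Sum.inl p => (linS x (p.1 : Sx N)).coeff p.2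
  | Sum.inr _ => X l

theorem gen_hom (hS : S_LinS) (I : Ideal (Sx N)) (l : Fin (N + 1)) (x : Vx N)
    (k : (I × ℕ) ⊕ Unit) : ∃ n : ℕ, (gen I l x k).IsHomogeneous n := by
  rcases k with p | u
  · exact ⟨p.2, (hS N x p.1 p.2).2.2.1⟩
  · exact ⟨1, isHomogeneous_X ℂ l⟩

/-- An ideal generated by forms is homogeneous. -/
theorem span_hom (s : Set (Sx N)) (hs : ∀ f ∈ s, ∃ m : ℕ, f.IsHomogeneous m) :
    IsHom (Ideal.span s) := by
  intro F hF m
  let _ := MvPolynomial.gradedAlgebra (σ := Fin (N + 1)) (R := ℂ)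
  have h1 : (Ideal.span s).IsHomogeneous (homogeneousSubmodule (Fin (N + 1)) ℂ) := by
    refine Ideal.homogeneous_span _ _ ?_
    intro f hf
    obtain ⟨n, hn⟩ := hs f hf
    exact ⟨n, hn⟩
  exact homogeneousComponent_mem_of_mem h1 hF m

theorem mem_zer_b (hS : S_LinS) (I : Ideal (Sx N)) (l : Fin (N + 1)) (y z : Vx N) :
    z ∈ zer (Ideal.span (Set.range (gen I l y))) ↔ (z l = 0 ∧ ∀ F ∈ I, lin y z F = 0) := by
  constructor
  · intro hz
    have hgen : ∀ k, eval z (gen I l y k) = 0 := fun k =>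
      hz _ (Ideal.subset_span (Set.mem_range_self k))
    refine ⟨?_, ?_⟩
    · have := hgen (Sum.inr ())
      rwa [gen, eval_X] at this
    · intro F hF
      ext n
      rw [← (hS N y F n).2.1 z, Polynomial.coeff_zero]
      exact hgen (Sum.inl (⟨F, hF⟩, n))
  · rintro ⟨hzl, hlin⟩ F hF
    have h1 : Ideal.span (Set.range (gen I l y)) ≤ RingHom.ker (eval z) := by
      rw [Ideal.span_le]
      rintro _ ⟨k, rfl⟩
      change eval z (gen I l y k) = 0
      rcases k with ⟨⟨F, hF⟩, n⟩ | u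
      · change eval z ((linS y F).coeff n) = 0
        rw [(hS N y F n).2.1, hlin F hF, Polynomial.coeff_zero]
      · change eval z (X l) = 0
        rw [eval_X, hzl]
    exact h1 hF

theorem line_of_lin {I : Ideal (Sx N)} (hH : IsHom I) {y z : Vx N}
    (hlin : ∀ F ∈ I, lin y z F = 0) (s t : ℂ) : s • y + t • z ∈ zer I := by
  intro F hF
  rw [← sum_homogeneousComponent F, map_sum]
  refine Finset.sum_eq_zero fun m _ => ?_
  rw [← lin_hom (homogeneousComponent_isHomogeneous m F), hlin _ (hH F hF m)]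
  simp

end CloseDAux

open CloseDAux in
theorem closeD : S_CElim → S_CLin → S_CUp → S_CJn → S_CLp → S_Meet → S_Null → S_LinS → S_LinB →
    S_CloseD := by
  intro hElim hCLin hUp hJn hLp hMeet hNull hS hB N D I hI hH g hg hl y hy hy0
  obtain ⟨l, hl0⟩ : ∃ l, y l ≠ 0 := by
    by_contra h
    push Not at h
    exact hy0 (funext h)
  have hbh : IsHom (Ideal.span (Set.range (gen I l y))) := by
    refine span_hom _ ?_
    rintro _ ⟨k, rfl⟩
    exact gen_hom hS I l y k
  by_cases hP0 : ∃ P : Ideal (Sx N), P.IsPrime ∧ IsHom P ∧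
      Ideal.span (Set.range (gen I l y)) ≤ P ∧ DimGe P (D + 1)
  · obtain ⟨P0, hp, hh, hle, hdim⟩ := hP0
    have hline : ∀ z ∈ zer P0, ∀ s t : ℂ, s • y + t • z ∈ zer I := by
      intro z hz
      have hzb : z ∈ zer (Ideal.span (Set.range (gen I l y))) := fun F hF => hz F (hle hF)
      exact line_of_lin hH ((mem_zer_b hS I l y z).mp hzb).2
    have hXl : (X l : Sx N) ∈ P0 :=
      hle (Ideal.subset_span (Set.mem_range_self (f := gen I l y) (Sum.inr ())))
    obtain ⟨k1, k2, k3, k4, k5⟩ := hJn N I P0 hp hh y hline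
    exact ⟨H.joinI P0 y, k1, k2, k4, hUp N P0 hp hh y l hl0 hXl (D + 1) hdim, k3, k5⟩
  · exfalso
    have hno : ∀ P : Ideal (Sx N), P.IsPrime → IsHom P →
        Ideal.span (Set.range (gen I l y)) ≤ P → ¬ DimGe P (D + 1) := by
      intro P h1 h2 h3 h4
      exact hP0 ⟨P, h1, h2, h3, h4⟩
    obtain ⟨h, hh1, hh2⟩ := hCLin N D _ hbh hno
    obtain ⟨Δ, hΔ1, hΔ2⟩ := hElim N I l y D h hh1
      (fun v hv1 hv2 hv3 => hh2 v ((mem_zer_b hS I l y v).mpr ⟨hv1, hv3⟩) hv2)
    have h2 : g * Δ * X l ∉ I := by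
      intro h3
      rcases hI.mem_or_mem h3 with h4 | h4
      · rcases hI.mem_or_mem h4 with h5 | h5
        · exact hg h5
        · exact hΔ1 (hy _ h5)
      · have h6 := hy _ h4
        rw [eval_X] at h6
        exact hl0 h6
    have h3 : ∃ x ∈ zer I, eval x (g * Δ * X l) ≠ 0 := by
      by_contra h4
      push Not at h4
      exact h2 ((hNull N I hI hH).1 _ h4)
    obtain ⟨x, hx, hx1⟩ := h3
    rw [map_mul, map_mul, eval_X] at hx1
    have hxl : x l ≠ 0 := right_ne_zero_of_mul hx1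
    have hxΔ : eval x Δ ≠ 0 := right_ne_zero_of_mul (left_ne_zero_of_mul hx1)
    have hxg : eval x g ≠ 0 := left_ne_zero_of_mul (left_ne_zero_of_mul hx1)
    have hx0 : x ≠ 0 := by
      rintro rfl
      exact hxl rfl
    obtain ⟨P, hPp, hPh, hPd, hPl⟩ := hl x hx hx0 hxg
    obtain ⟨P', hp', hh', hm', hd'⟩ := hLp N (D + 1) (Fin.cons (X l) h) (by
      intro i
      refine Fin.cases ?_ (fun j => ?_) i
      · rw [Fin.cons_zero]
        exact isHomogeneous_X ℂ l
      · rw [Fin.cons_succ]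
        exact hh1 j)
    obtain ⟨z, hz0, hzP, hzP'⟩ := hMeet N P P' (D + 2) (N + 1 - (D + 1)) hPp hp' hPh hh' hPd hd'
      (by omega)
    have hzl : z l = 0 := by
      have h6 := hm' 0
      rw [Fin.cons_zero] at h6
      have h7 := hzP' _ h6
      rwa [eval_X] at h7
    have hzh : ∀ i, eval z (h i) = 0 := by
      intro i
      have h6 := hm' (Fin.succ i)
      rw [Fin.cons_succ] at h6
      exact hzP' _ h6
    exact hz0 (hΔ2 x hxΔ z hzl hzh (fun F hF => (hB N x z F).2.2 I (hPl z hzP) hF))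

end Pool.Agent.Lib.MP_776403_ag.SD
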