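import Pool.Agent.Lib.MP_776403_ag.SD.HE.Main
import Pool.Agent.Lib.MP_776403_ag.SD.SpecD
import Pool.Agent.Lib.MP_776403_ag.SD.SpecL

/-!
# THEOREM R: large cones of lines through general points give large cones through all points

Statements with complete proofs in the docstrings; `S_C…` is proved in `SD/R/….lean` (theorem `c…`).
-/

set_option autoImplicit false

open MvPolynomial

noncomputable section

namespace Pool.Agent.Lib.MP_776403_ag.SD

/-- (CElim) ELIMINATION.  If `0` is the only common zero of the equations of the lines through `y`, of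
the coordinate `l` and of the linear forms `h i`, then the same holds for `x` near `y`.

PROOF.  Exactly the lemma `CloseAux.key` of `L/Close.lean` with the additional generators `h i`
(index type `(I × ℕ) ⊕ Unit ⊕ Fin e` or `(I × ℕ) ⊕ Option (Fin e)`; generic version of `h i`:
`MvPolynomial.map C (h i)`, `MvPolynomial.map (eval x) (MvPolynomial.map C (h i)) = h i`).
`b_x` = ideal generated by the `(linS x F).coeff n` (`F ∈ I`, `n`), by `X l` and by the `h i`;
`eval v ((linS x F).coeff n) = (lin x v F).coeff n` (`S_LinS`), so `v ∈ zer b_x` iff `v l = 0`,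
`h i (v) = 0` and `lin x v F = 0` for all `F ∈ I`.  By `S_D6'` for `b_y` there is `ρ` such that `b_y`
contains all monomials `μ` of degree `ρ`: `μ = ∑_k A_(μ,k) gen_k(y)`; `Δ(x)` = determinant of the
coefficients of degree `ρ` of the `∑_k A_(μ,k) gen_k(x)`, `Δ(y) = 1`. -/
def S_CElim : Prop :=
  ∀ (N : ℕ) (I : Ideal (Sx N)) (l : Fin (N + 1)) (y : Vx N) (e : ℕ) (h : Fin e → Sx N),
    (∀ i, (h i).IsHomogeneous 1) →
    (∀ v : Vx N, v l = 0 → (∀ i, eval v (h i) = 0) → (∀ F ∈ I, lin y v F = 0) → v = 0) →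
    ∃ Δ : Sx N, eval y Δ ≠ 0 ∧ ∀ x : Vx N, eval x Δ ≠ 0 → ∀ v : Vx N, v l = 0 →
      (∀ i, eval v (h i) = 0) → (∀ F ∈ I, lin x v F = 0) → v = 0

/-- (CDim) DIMENSIONS OF PRIMES DECREASE STRICTLY.

PROOF.  `F ∈ P'`, `F ∉ P`; coordinates `i : Fin e → Fin (N + 1)` independent modulo `P'`.  CLAIM: the
`X (i k)` and `F` are algebraically independent modulo `P`.  Let `q ≠ 0` be a polynomial in `Y_k` and `Z`
with `q (X (i k), F) ∈ P`; `q = Z^m q'` with `q' (Y, 0) ≠ 0` (think of `q` as a polynomial in `Z` over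
`ℂ[Y]`, `Polynomial (MvPolynomial (Fin e) ℂ)`: `MvPolynomial.finSuccEquiv` or `optionEquivLeft`;
`Polynomial.X_pow_dvd..`, or take `q` of minimal `Z`-degree).  `F^m q'(X, F) ∈ P`, so `q'(X, F) ∈ P ≤ P'`
and, as `F ∈ P'`, `q'(X, 0) ∈ P'`, so `q'(Y, 0) = 0`: contradiction.  (Or:
`AlgebraicIndependent.option_iff_transcendental`.)  So `S ⧸ P` contains `e + 1` algebraically
independent elements and `S_TB` (family `mk (X j)`, `adjoin = ⊤`) gives `e + 1` coordinates. -/
def S_CDim : Prop :=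
  ∀ (N : ℕ) (P P' : Ideal (Sx N)), P.IsPrime → P'.IsPrime → P ≤ P' → P ≠ P' → ∀ e : ℕ,
    DimGe P' e → DimGe P (e + 1)

/-- (CLin) LINEAR SECTIONS.  A cone without components of dimension `≥ e + 1` meets a linear subspace
of codimension `e` only in `0`.

PROOF.  Induction on `e`.  `e = 0`: let `z ∈ zer b`, `z ≠ 0`, and `P` = kernel of `Sx N → ℂ[t]`,
`X_i ↦ z_i t` (the polynomials that vanish at all `t z`): prime, homogeneous (`F(t z) = ∑ t^m F_m(z)`),
`b ≤ P` (`b` homogeneous), and `X_i`, `z_i ≠ 0`, is algebraically independent modulo `P`: contradiction.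
`e + 1`: `b` has finitely many minimal primes (`Ideal.finite_minimalPrimes_of_isNoetherianRing`), they
are homogeneous (`S_D2c` with `w = 1`: the homogeneous core of a minimal prime is a prime containing
`b`; `weightedHomogeneousComponent_one`).  For each minimal prime `P_j` which does not contain all
the variables the vectors `a : Vx N` with `∑ a_i X_i ∈ P_j` form a proper subspace of `Vx N`; a finite
union of proper subspaces over the infinite field `ℂ` is not everything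
(`Subspace.biUnion_ne_univ_of_top_notMem` or similar): `a`, `h₀ = ∑ C (a_i) X_i` in none of these `P_j`.
`b' = b ⊔ span {h₀}` is homogeneous.  Let `P ≥ b'` be a homogeneous prime with `DimGe P (e + 1)`:
`P ≥ P_j` for a minimal prime `P_j` of `b` (`Ideal.exists_minimalPrimes_le`).  If `P_j` contains all
variables then so does `P` and `DimGe P (e + 1)` is impossible (`mk (X i) = 0`).  Otherwise `h₀ ∉ P_j`,
`P_j ≠ P`, `S_CDim`: `DimGe P_j (e + 2)`, contradiction.  Apply the induction hypothesis to `b'` and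
add `h₀` (`Fin.cons`). -/
def S_CLin : Prop :=
  ∀ (N e : ℕ) (b : Ideal (Sx N)), IsHom b →
    (∀ P : Ideal (Sx N), P.IsPrime → IsHom P → b ≤ P → ¬ DimGe P (e + 1)) →
    ∃ h : Fin e → Sx N, (∀ i, (h i).IsHomogeneous 1) ∧
      ∀ z ∈ zer b, (∀ i, eval z (h i) = 0) → z = 0

/-- (CUp) THE JOIN WITH A POINT OUTSIDE OF THE HYPERPLANE `X l = 0`.

PROOF.  `H.joinI P x` is the kernel of `φ : Sx N → (S ⧸ P)[s]`, `X_i ↦ mk X_i + x_i s` (`HE/Main.lean`).
`φ (X l) = x_l s` (`X l ∈ P`), so `s = φ (C x_l⁻¹ * X l)` and `φ (X_i - C (x_i / x_l) X l) = C (mk X_i)`.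
The `e + 1` elements `C (mk (X (i k)))` and `s` of `(S ⧸ P)[s]` are algebraically independent (a
polynomial relation, written as polynomial in `s`, has coefficients that are relations between the
`mk (X (i k))`), so are their preimages in `S ⧸ joinI` (injective map to `(S ⧸ P)[s]`); `S_TB`. -/
def S_CUp : Prop :=
  ∀ (N : ℕ) (P : Ideal (Sx N)), P.IsPrime → IsHom P → ∀ (x : Vx N) (l : Fin (N + 1)),
    x l ≠ 0 → (X l : Sx N) ∈ P → ∀ e : ℕ, DimGe P e → DimGe (H.joinI P x) (e + 1)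

/-- (CJn) The join, continued.

PROOF.  As in the proof of `H.eLineE` (`HE/Main.lean`): `F ∈ joinI P x` iff `F (z + s x) = 0` for all
`z ∈ zer P`, `s` (`H.mem_joinI`).  (1), (2): `H.joinI_prime`, `H.joinI_hom`.  (3) `hz` in that proof.
(4) `I ≤`: `F (z + s x) = 0` for `F ∈ I`.  (5) the polynomials `v ↦ F (s x + t v)`, `F ∈ I`
(`H.affP`, `H.eval_affP`), are in `joinI`. -/
def S_CJn : Prop :=
  ∀ (N : ℕ) (I P : Ideal (Sx N)), P.IsPrime → IsHom P → ∀ x : Vx N,
    (∀ z ∈ zer P, ∀ s t : ℂ, s • x + t • z ∈ zer I) →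
    (H.joinI P x).IsPrime ∧ IsHom (H.joinI P x) ∧
      (∀ v ∈ zer (H.joinI P x), ∀ s : ℂ, v + s • x ∈ zer (H.joinI P x)) ∧
      I ≤ H.joinI P x ∧ ∀ z ∈ zer (H.joinI P x), ∀ s t : ℂ, s • x + t • z ∈ zer I

/-- (CLp) A linear subspace of codimension `≤ k`.

PROOF.  `S_Krull` (`σ = Fin (N + 1)`, weights `1`, `J = span (range h)`, `z = 0`, `g = k`, `b = h`;
`IsWH (fun _ => 1)` is `IsHom`, `weightedHomogeneousComponent_one`) and `S_TB`. -/
def S_CLp : Prop :=
  ∀ (N k : ℕ) (h : Fin k → Sx N), (∀ i, (h i).IsHomogeneous 1) →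
    ∃ P : Ideal (Sx N), P.IsPrime ∧ IsHom P ∧ (∀ i, h i ∈ P) ∧ DimGe P (N + 1 - k)

/-- (CloseD) LARGE CONES OF LINES THROUGH GENERAL POINTS GIVE LARGE CONES THROUGH ALL POINTS.

PROOF.  `y l ≠ 0`; `b` = ideal generated by the `(linS y F).coeff n` (`F ∈ I`, `n : ℕ`) and by `X l`; it is
homogeneous (generated by forms: `S_LinS`; compare `CloseAux.gen_hom`).  `z ∈ zer b` iff `z l = 0` and
`lin y z F = 0` for all `F ∈ I`; then `s y + t z ∈ zer I` for all `s, t` (components of `F` are in `I`,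
`S_LinB`; as in `lClose`).
(1) If there is a homogeneous prime `P₀ ≥ b` with `DimGe P₀ (D + 1)`: `P = joinI P₀ y`, `S_CUp`, `S_CJn`.
(2) Otherwise `S_CLin` with `e = D`: linear forms `h i`, `i : Fin D`, such that `0` is the only `z` with
`z l = 0`, `h i (z) = 0`, `lin y z F = 0` for all `F ∈ I`.  `S_CElim`: `Δ`.  As in `lClose` there is
`x ∈ zer I` with `g(x) Δ(x) x_l ≠ 0` (`S_Null`), `x ≠ 0`; let `P` be the prime of the hypothesis for `x`,
`DimGe P (D + 2)`; `P'` = the prime of `S_CLp` for the `D + 1` linear forms `X l`, `h i`: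
`DimGe P' (N - D)` (`D ≤ N`: if `D > N` then `DimGe P (D + 2)` is impossible, `D + 2` independent
coordinates; or treat `N - D` with truncated subtraction and note that `D + 2 ≤ N + 1`).
`S_Meet`: `D + 2 + (N + 1 - (D + 1)) ≥ N + 2`: `z ≠ 0` in `zer P ∩ zer P'`: `z l = 0`, `h i (z) = 0` and
`s x + t z ∈ zer I`, so `lin x z F = 0` for `F ∈ I`: contradiction to (2). -/
def S_CloseD : Prop :=
  ∀ (N D : ℕ) (I : Ideal (Sx N)), I.IsPrime → IsHom I → ∀ g : Sx N, g ∉ I →
    (∀ x ∈ zer I, x ≠ 0 → eval x g ≠ 0 → ∃ P : Ideal (Sx N), P.IsPrime ∧ IsHom P ∧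
      DimGe P (D + 2) ∧ ∀ z ∈ zer P, ∀ s t : ℂ, s • x + t • z ∈ zer I) →
    ∀ y ∈ zer I, y ≠ 0 → ∃ P : Ideal (Sx N), P.IsPrime ∧ IsHom P ∧ I ≤ P ∧ DimGe P (D + 2) ∧
      (∀ v ∈ zer P, ∀ s : ℂ, v + s • y ∈ zer P) ∧
      ∀ z ∈ zer P, ∀ s t : ℂ, s • y + t • z ∈ zer I

end Pool.Agent.Lib.MP_776403_ag.SD
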