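import Pool.Agent.Lib.MP_776403_ag.SD.J.Fin

/-!
# THEOREM R: all lines of a cone of lines have the same degree
-/

set_option autoImplicit false

open MvPolynomial

noncomputable section

namespace Pool.Agent.Lib.MP_776403_ag.SD

namespace ConAux

open JAsmAux JLamAux

variable {N : ℕ}

theorem good' : S_Good := eGood (eHom eLinB)

/-- The degree on a line of a cone with vertex `x`, in terms of the ideal of the minors. -/
theorem deg_line (c : ℕ) (I J : Ideal (Sx N)) (x : Vx N) (hI : I.IsPrime)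
    (hIh : IsHom I) (hS : Smooth I c) (hJ : J.IsPrime) (hJh : IsHom J) (hIJ : I ≤ J)
    (hJv : ∀ v ∈ zer J, ∀ s : ℂ, v + s • x ∈ zer J)
    (hline : ∀ v ∈ zer J, ∀ s t : ℂ, s • x + t • v ∈ zer I) (a : Vx N)
    (hax : ∑ i, a i * x i = 1) (L : Loc I x c) (v : Vx N) (hv : v ∈ zer J)
    (hind : LinearIndependent ℂ ![x, v]) :
    ∀ᶠ m : ℕ in Filter.atTop, Module.finrank ℂ (Lam I (lineI x v) 1 m) +
      col (idB I J L.B) x (v - (∑ i, a i * v i) • x) = c * m := by
  obtain ⟨μ, hμ⟩ := good' N c I x v L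
  rw [← lineI_add x v μ]
  have hcone : ∀ z ∈ zer J, ∀ s t : ℂ, s • x + t • z ∈ zer J := by
    intro z hz s t
    have := hJv _ (JInjAux.zer_smul hJh hz t) s
    rwa [add_comm] at this
  set v' := v + μ • x with hv'
  have hv'J : v' ∈ zer J := hJv v hv μ
  have hind' : LinearIndependent ℂ ![x, v'] := by
    rw [LinearIndependent.pair_iff] at hind ⊢
    intro s t hst
    have e : s • x + t • v' = (s + t * μ) • x + t • v := by rw [hv']; module
    rw [e] at hst
    obtain ⟨h1, h2⟩ := hind _ _ hst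
    refine ⟨?_, h2⟩
    rw [h2, zero_mul, add_zero] at h1
    exact h1
  have hdth : L.dt.IsHomogeneous L.dg := ((eHom eLinB) N c I x v' L).1
  have hdtx : eval x L.dt ≠ 0 := L.detx
  set A := idB I J L.B with hA
  have hAh : IsHom A := idB_hom hIh hJh L.B
  have hDA : L.dt ∈ A := Ideal.mem_sup_right (Ideal.subset_span ⟨L.F, L.memF, rfl⟩)
  have hproj : v' - (∑ i, a i * v' i) • x = v - (∑ i, a i * v i) • x := by
    have h1 : ∑ i, a i * v' i = ∑ i, a i * v i + μ := by
      have h2 : ∀ i, a i * v' i = a i * v i + μ * (a i * x i) := fun i => by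
        rw [hv', Pi.add_apply, Pi.smul_apply, smul_eq_mul]
        ring
      rw [Finset.sum_congr rfl fun i _ => h2 i, Finset.sum_add_distrib, ← Finset.mul_sum, hax,
        mul_one]
    rw [h1, hv']
    module
  rw [← hproj]
  set v0 := v' - (∑ i, a i * v' i) • x with hv0
  set δ := col A x v0 with hδ
  have hD0 : lin x v' L.dt ≠ 0 := by
    intro h
    have h1 := lin_eval x v' L.dt 0
    rw [h, Polynomial.eval_zero, zero_smul, add_zero] at h1
    exact hdtx h1.symm
  have hfit := ((jFit jPid) c {e | ∃ F ∈ I, e = fun b => lin x v' (pderiv (L.B b) F)}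
    (lin x v' L.dt) hD0 (ColAux.D_mul_mem L v')).2
  rw [fit_eq (J := J) L v' (hcone v' hv'J)] at hfit
  have hr1 := (jRev jPid) N A hAh x v' L.dt L.dg hDA hdth hdtx
  have hr2 := (jRev jPid) N A hAh v' x L.dt L.dg hDA hdth hμ
  have hcolv : Module.finrank ℂ (Polynomial ℂ ⧸ A.map (lin x v')) = δ := by
    have e1 : col A x v' = δ := by
      have e2 : v' = v0 + (∑ i, a i * v' i) • x := by rw [hv0]; module
      rw [e2, jTr]
    have e3 : Module.finrank ℂ (Polynomial ℂ ⧸ A.map (lin v' x)) = col A x v' := rfl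
    have e4 : col A v' x = Module.finrank ℂ (Polynomial ℂ ⧸ A.map (lin x v')) := rfl
    rw [e3, e4, e1] at hr2
    rw [e1] at hr1
    exact le_antisymm hr1 hr2
  have hlineI : IsLine I x v' := ⟨hind', fun s t => by
    have := hcone v' hv'J s t
    exact fun F hF => this F (hIJ hF)⟩
  filter_upwards [(jSur (eHom eLinB) (eCrL eLinB) (eLineI eLinB)) N c I hI hIh hS x v' hlineI L hμ]
    with m hm
  have e5 : Module.finrank ℂ ((Fin c → Polynomial ℂ) ⧸ L.E v') = δ := by
    rw [← hcolv, ← hfit]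
    rfl
  rw [e5] at hm
  omega

end ConAux

open ConAux JAsmAux in
/-- All lines of a cone of lines through `x` have the same degree. -/
theorem cCon (N c b : ℕ) (I J : Ideal (Sx N)) (x : Vx N) (hI : I.IsPrime)
    (hIh : IsHom I) (hS : Smooth I c) (hJ : J.IsPrime) (hJh : IsHom J) (hIJ : I ≤ J)
    (hJv : ∀ v ∈ zer J, ∀ s : ℂ, v + s • x ∈ zer J)
    (hline : ∀ v ∈ zer J, ∀ s t : ℂ, s • x + t • v ∈ zer I)
    (v : Vx N) (hv : v ∈ zer J) (hind : LinearIndependent ℂ ![x, v])
    (w : Vx N) (hw : w ∈ zer J) (hindw : LinearIndependent ℂ ![x, w])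
    (hb : ∀ᶠ m : ℕ in Filter.atTop,
      Module.finrank ℂ (Lam I (lineI x v) 1 m) + b = c * (m + 1)) :
    ∀ᶠ m : ℕ in Filter.atTop,
      Module.finrank ℂ (Lam I (lineI x w) 1 m) + b = c * (m + 1) := by
  have hx0 : x ≠ 0 := hind.ne_zero 0
  have hxI : x ∈ zer I := by
    have := hline v hv 1 0
    rwa [one_smul, zero_smul, add_zero] at this
  obtain ⟨i0, hi0⟩ : ∃ i, x i ≠ 0 := by
    by_contra h
    push Not at h
    exact hx0 (funext h)
  obtain ⟨a, hax⟩ : ∃ a : Vx N, ∑ i, a i * x i = 1 := by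
    refine ⟨Pi.single i0 (x i0)⁻¹, ?_⟩
    rw [Finset.sum_eq_single i0]
    · rw [Pi.single_eq_same, inv_mul_cancel₀ hi0]
    · intro j _ hj
      rw [Pi.single_eq_of_ne hj, zero_mul]
    · intro h
      exact absurd (Finset.mem_univ i0) h
  obtain ⟨L⟩ := eLoc N c I hS x hxI hx0
  have h1 := deg_line c I J x hI hIh hS hJ hJh hIJ hJv hline a hax L v hv hind
  have h2 := deg_line c I J x hI hIh hS hJ hJh hIJ hJv hline a hax L w hw hindw
  have hcone : ∀ z ∈ zer J, ∀ s t : ℂ, s • x + t • z ∈ zer J := by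
    intro z hz s t
    have := hJv _ (JInjAux.zer_smul hJh hz t) s
    rwa [add_comm] at this
  have hdth : L.dt.IsHomogeneous L.dg := ((eHom eLinB) N c I x v L).1
  have hdtx : eval x L.dt ≠ 0 := L.detx
  set A := idB I J L.B with hA
  set A' := idF J L.F with hA'
  have hDA : L.dt ∈ A := Ideal.mem_sup_right (Ideal.subset_span ⟨L.F, L.memF, rfl⟩)
  have hDA' : L.dt ∈ A' := Ideal.mem_sup_right (Ideal.subset_span ⟨L.B, rfl⟩)
  have hindz : ∀ z : Vx N, z ≠ 0 → ∑ i, a i * z i = 0 → LinearIndependent ℂ ![x, z] := by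
    intro z hz0 hzl
    rw [LinearIndependent.pair_iff]
    intro s t hst
    have h1 : ∑ i, a i * (s • x + t • z) i = s := by
      have : ∀ i, a i * (s • x + t • z) i = s * (a i * x i) + t * (a i * z i) := fun i => by
        rw [Pi.add_apply, Pi.smul_apply, Pi.smul_apply, smul_eq_mul, smul_eq_mul]; ring
      rw [Finset.sum_congr rfl fun i _ => this i, Finset.sum_add_distrib, ← Finset.mul_sum,
        ← Finset.mul_sum, hax, hzl, mul_one, mul_zero, add_zero]
    rw [hst] at h1
    have h2 : s = 0 := by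
      rw [← h1]
      exact Finset.sum_eq_zero fun i _ => by rw [Pi.zero_apply, mul_zero]
    rw [h2, zero_smul, zero_add] at hst
    exact ⟨h2, (smul_eq_zero.mp hst).resolve_right hz0⟩
  have hsum : ∀ z ∈ zer J, z ≠ 0 → ∑ i, a i * z i = 0 → col A x z + col A' x z = L.dg :=
    fun z hz hz0 hzl => (jLin jPid (eHom eLinB) (jMin eCN)) N c I J hI hIh hS hIJ x z
      (hindz z hz0 hzl) (hcone z hz) L
  have hne : ∀ u : Vx N, LinearIndependent ℂ ![x, u] → u - (∑ i, a i * u i) • x ≠ 0 := by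
    intro u hu h
    have := LinearIndependent.pair_iff.1 hu (-(∑ i, a i * u i)) 1 (by
      rw [← h]
      module)
    exact one_ne_zero this.2
  obtain ⟨hv0J, hv0l⟩ := JInjAux.zer_proj hax hJv hv
  obtain ⟨hw0J, hw0l⟩ := JInjAux.zer_proj hax hJv hw
  have hcst := jCst jPid tNull (jDec tNull) (jCr jPid (jDec tNull))
  have heq : col A x (v - (∑ i, a i * v i) • x) = col A x (w - (∑ i, a i * w i) • x) :=
    le_antisymm
      (hcst N a x hax J A A' hJ hJh hJv L.dt L.dg hDA hDA' hdth hdtx hsum _ hw0J (hne w hindw)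
        hw0l _ hv0J (hne v hind) hv0l)
      (hcst N a x hax J A A' hJ hJh hJv L.dt L.dg hDA hDA' hdth hdtx hsum _ hv0J (hne v hind)
        hv0l _ hw0J (hne w hindw) hw0l)
  rw [← heq] at h2
  -- comparison of the two numbers for one large `m`
  obtain ⟨m0, hm1, hm2⟩ := (h1.and hb).exists
  have hb' : b = c + col A x (v - (∑ i, a i * v i) • x) := by
    have e6 : c * (m0 + 1) = c * m0 + c := by ring
    omega
  filter_upwards [h2] with m hm
  have e6 : c * (m + 1) = c * m + c := by ring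
  omega

end Pool.Agent.Lib.MP_776403_ag.SD
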